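import Mathlib

/-!
# Polarity graphs of abelian planes of square order

`D` is a planar difference set in a finite abelian group `G`: every nonzero element is a difference of exactly one
pair of elements of `D`. The order of the plane is `n = |D| - 1`.
-/

set_option autoImplicit false

namespace Pool.Agent.C4p

open Finset

variable {G : Type} [AddCommGroup G] [Fintype G]

/-- every nonzero element is a difference of exactly one pair of elements of `D` -/
def Planar (D : Finset G) : Prop :=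
  ∀ g : G, g ≠ 0 → ∃! w : G × G, w.1 ∈ D ∧ w.2 ∈ D ∧ w.1 - w.2 = g

-- BEGIN uni
/-- (A weaker form used all the time.) If `a - b = c - d` and `a ≠ b` then `a = c` and `b = d`. -/
theorem uni {D : Finset G} (hD : Planar D) {a b c d : G} (ha : a ∈ D) (hb : b ∈ D) (hc : c ∈ D) (hd : d ∈ D)
    (h : a - b = c - d) (hab : a ≠ b) : a = c ∧ b = d := by
  have h1 := (hD (a - b) (sub_ne_zero.2 hab)).unique (y₁ := (a, b)) (y₂ := (c, d)) ⟨ha, hb, rfl⟩ ⟨hc, hd, h.symm⟩
  exact ⟨congrArg Prod.fst h1, congrArg Prod.snd h1⟩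
-- END uni

-- BEGIN crd
open Classical in
theorem crd_off {D : Finset G} (hD : Planar D) {M : Type} [AddCommMonoid M] (F : G → M) :
    ∑ w ∈ D.offDiag, F (w.1 - w.2) = ∑ x ∈ Finset.univ.erase (0 : G), F x := by
  refine Finset.sum_bij (fun w _ => w.1 - w.2) ?_ ?_ ?_ ?_
  · intro w hw
    obtain ⟨_, _, h3⟩ := Finset.mem_offDiag.mp hw
    exact Finset.mem_erase.mpr ⟨sub_ne_zero.mpr h3, Finset.mem_univ _⟩
  · intro w hw w' hw' e
    obtain ⟨h1, h2, h3⟩ := Finset.mem_offDiag.mp hw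
    obtain ⟨h1', h2', h3'⟩ := Finset.mem_offDiag.mp hw'
    exact (hD (w.1 - w.2) (sub_ne_zero.mpr h3)).unique ⟨h1, h2, rfl⟩ ⟨h1', h2', e.symm⟩
  · intro x hx
    have hx0 := (Finset.mem_erase.mp hx).1
    obtain ⟨w, ⟨h1, h2, h3⟩, _⟩ := hD x hx0
    refine ⟨w, Finset.mem_offDiag.mpr ⟨h1, h2, ?_⟩, h3⟩
    intro e
    rw [e, sub_self] at h3
    exact hx0 h3.symm
  · intro w _
    rfl

/-- Count the pairs `(a, b)`, `a ≠ b`, of elements of `D` by their difference. -/
theorem crd {D : Finset G} (hD : Planar D) (n : ℕ) (hn : D.card = n + 1) : Fintype.card G = n ^ 2 + n + 1 := by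
  classical
  have h := crd_off hD (fun _ => (1 : ℕ))
  rw [← Finset.card_eq_sum_ones, ← Finset.card_eq_sum_ones, Finset.offDiag_card, hn,
    Finset.card_erase_of_mem (Finset.mem_univ _), Finset.card_univ] at h
  have hpos : 0 < Fintype.card G := Fintype.card_pos
  have h2 : (n + 1) * (n + 1) = n ^ 2 + n + (n + 1) := by ring
  omega
-- END crd

/-- the number of pairs `(a, b)` in `D × D` with `m a - b = g` -/
noncomputable def cnt (D : Finset G) (m : ℕ) (g : G) : ℕ := {w : G × G | w.1 ∈ D ∧ w.2 ∈ D ∧ m • w.1 - w.2 = g}.ncard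

-- BEGIN con
open Classical in
theorem con_cnt (D : Finset G) (m : ℕ) (g : G) :
    cnt D m g = ((D ×ˢ D).filter fun w => m • w.1 - w.2 = g).card := by
  rw [cnt, ← Set.ncard_coe_finset]
  congr 1
  ext w
  simp only [Set.mem_ofPred_eq, Finset.coe_filter, Finset.mem_product]
  tauto

/-- In `R = AddMonoidAlgebra (ZMod p) G` let `a = ∑ d ∈ D, single d 1`, `b = ∑ d ∈ D, single (-d) 1`, `J = ∑ g, single g 1`. Then `a * b = n • 1 + J = J` (`Planar`, `p ∣ n`), `single d 1 * J = J`, so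
`a ^ p * b = a ^ (p - 1) * J = (n + 1) ^ (p - 1) • J = J`, and `a ^ p = ∑ d ∈ D, single (p • d) 1` (`sum_pow_char`). The coefficient of `a ^ p * b` at `g` is `cnt D p g`. -/
theorem con {D : Finset G} (hD : Planar D) (n : ℕ) (hn : D.card = n + 1) (p : ℕ) (hp : p.Prime) (hpn : p ∣ n) (g : G) :
    (cnt D p g : ZMod p) = 1 := by
  classical
  haveI : Fact p.Prime := ⟨hp⟩
  haveI : CharP (AddMonoidAlgebra (ZMod p) G) p :=
    charP_of_injective_algebraMap (algebraMap (ZMod p) (AddMonoidAlgebra (ZMod p) G)).injective p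
  haveI : ExpChar (AddMonoidAlgebra (ZMod p) G) p := ExpChar.prime hp
  obtain ⟨s, hs0⟩ : ∃ s : G → AddMonoidAlgebra (ZMod p) G, ∀ x, s x = AddMonoidAlgebra.single x 1 :=
    ⟨_, fun x => rfl⟩
  have hs : ∀ x y, s x * s y = s (x + y) := fun x y => by
    rw [hs0, hs0, hs0, AddMonoidAlgebra.single_mul_single, mul_one]
  have hsp : ∀ x, s x ^ p = s (p • x) := fun x => by
    rw [hs0, hs0, AddMonoidAlgebra.single_pow, one_pow]
  have hn0 : ((n : ℕ) : AddMonoidAlgebra (ZMod p) G) = 0 :=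
    (CharP.cast_eq_zero_iff (AddMonoidAlgebra (ZMod p) G) p n).mpr hpn
  set a : AddMonoidAlgebra (ZMod p) G := ∑ d ∈ D, s d with ha
  set b : AddMonoidAlgebra (ZMod p) G := ∑ d ∈ D, s (-d) with hb
  set J : AddMonoidAlgebra (ZMod p) G := ∑ x, s x with hJ
  have hab : a * b = J := by
    have e1 : a * b = ∑ w ∈ D ×ˢ D, s (w.1 - w.2) := by
      rw [ha, hb, Finset.sum_mul_sum, Finset.sum_product]
      refine Finset.sum_congr rfl fun x _ => Finset.sum_congr rfl fun y _ => ?_
      rw [hs, sub_eq_add_neg]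
    have e2 : ∑ w ∈ D.diag, s (w.1 - w.2) = ((n + 1 : ℕ) : AddMonoidAlgebra (ZMod p) G) * s 0 := by
      rw [Finset.sum_diag]
      simp only [sub_self, Finset.sum_const, hn, nsmul_eq_mul]
    have e3 : ∑ w ∈ D.offDiag, s (w.1 - w.2) = ∑ x ∈ Finset.univ.erase (0 : G), s x := crd_off hD s
    rw [e1, ← Finset.diag_union_offDiag, Finset.sum_union (Finset.disjoint_diag_offDiag D), e2, e3,
      Nat.cast_add, hn0, zero_add, Nat.cast_one, one_mul, hJ]
    exact Finset.add_sum_erase _ _ (Finset.mem_univ _)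
  have hsJ : ∀ x, s x * J = J := by
    intro x
    rw [hJ, Finset.mul_sum]
    simp only [hs]
    exact Equiv.sum_comp (Equiv.addLeft x) s
  have haJ : a * J = J := by
    rw [ha, Finset.sum_mul]
    simp only [hsJ, Finset.sum_const, hn, nsmul_eq_mul]
    rw [Nat.cast_add, hn0, zero_add, Nat.cast_one, one_mul]
  have hpow : ∀ k : ℕ, a ^ k * J = J := by
    intro k
    induction k with
    | zero => rw [pow_zero, one_mul]
    | succ k ih => rw [pow_succ, mul_assoc, haJ, ih]
  have h1 : a ^ p * b = J := by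
    have hk : a ^ p = a ^ (p - 1) * a := by
      rw [← pow_succ, Nat.sub_add_cancel hp.pos]
    rw [hk, mul_assoc, hab, hpow]
  have h2 : a ^ p * b = ∑ w ∈ D ×ˢ D, s (p • w.1 - w.2) := by
    rw [ha, hb, sum_pow_char, Finset.sum_mul_sum, Finset.sum_product]
    refine Finset.sum_congr rfl fun x _ => Finset.sum_congr rfl fun y _ => ?_
    rw [hsp, hs, sub_eq_add_neg]
  rw [h1, hJ] at h2
  have h3 := congrArg (fun r : AddMonoidAlgebra (ZMod p) G => r.coeff g) h2
  simp only [AddMonoidAlgebra.coeff_sum, hs0, AddMonoidAlgebra.coeff_single, Finsupp.coe_finsetSum,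
    Finset.sum_apply, Finsupp.single_apply] at h3
  rw [Finset.sum_ite_eq' Finset.univ g, if_pos (Finset.mem_univ _)] at h3
  rw [con_cnt, Finset.natCast_card_filter]
  exact h3.symm
-- END con

-- BEGIN sm1
/-- Every pair of `D × D` is counted once. -/
theorem sm1 (D : Finset G) (m : ℕ) : ∑ g : G, cnt D m g = D.card ^ 2 := by
  classical
  have h : ∀ g : G, cnt D m g = ((D ×ˢ D).filter fun w => m • w.1 - w.2 = g).card := by
    intro g
    unfold cnt
    rw [← Set.ncard_coe_finset]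
    congr 1
    ext w
    simp [and_assoc]
  rw [Finset.sum_congr rfl fun g _ => h g,
    ← Finset.card_eq_sum_card_fiberwise (f := fun w : G × G => m • w.1 - w.2) (s := D ×ˢ D) (t := Finset.univ)
      (fun w _ => Finset.mem_coe.2 (Finset.mem_univ _)), Finset.card_product, sq]
-- END sm1

-- BEGIN sm2
open Classical in
private theorem sm2_cnt (D : Finset G) (m : ℕ) (g : G) :
    cnt D m g = ∑ a ∈ D, ∑ b ∈ D, if m • a - b = g then 1 else 0 := by
  have h : cnt D m g = ((D ×ˢ D).filter fun w => m • w.1 - w.2 = g).card := by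
    unfold cnt
    rw [← Set.ncard_coe_finset]
    congr 1
    ext w
    simp only [Set.mem_ofPred_eq, Finset.coe_filter, Finset.mem_product, and_assoc]
  rw [h, Finset.card_filter, Finset.sum_product]

open Classical in
private theorem sm2_in {D : Finset G} (hD : Planar D) (n : ℕ) (hn : D.card = n + 1) (m : ℕ)
    (hm : ∀ x : G, m • x = 0 → x = 0) (a c : G) :
    (∑ b ∈ D, ∑ d ∈ D, if m • a - b = m • c - d then 1 else 0) = if a = c then n + 1 else 1 := by
  by_cases hac : a = c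
  · subst hac
    rw [if_pos rfl, ← hn, Finset.card_eq_sum_ones]
    refine Finset.sum_congr rfl fun b hb => ?_
    rw [Finset.sum_eq_single b]
    · rw [if_pos rfl]
    · intro d _ hdb
      rw [if_neg]
      intro h
      exact hdb (sub_right_injective h).symm
    · intro h
      exact absurd hb h
  · rw [if_neg hac]
    have h0 : m • (a - c) ≠ 0 := fun h => hac (sub_eq_zero.1 (hm _ h))
    obtain ⟨w, ⟨hw1, hw2, hw3⟩, huw⟩ := hD _ h0
    have e : ∀ b d : G, m • a - b = m • c - d ↔ b - d = m • (a - c) := by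
      intro b d
      rw [smul_sub]
      constructor
      · intro h
        have h1 : b = m • a - (m • c - d) := by rw [← h]; abel
        rw [h1]
        abel
      · intro h
        have h1 : b = (m • a - m • c) + d := by rw [← h]; abel
        rw [h1]
        abel
    rw [Finset.sum_eq_single w.1]
    · rw [Finset.sum_eq_single w.2]
      · rw [if_pos ((e _ _).2 hw3)]
      · intro d hd hdw
        rw [if_neg]
        intro h
        have h2 := huw (w.1, d) ⟨hw1, hd, (e _ _).1 h⟩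
        exact hdw (congrArg Prod.snd h2)
      · intro h
        exact absurd hw2 h
    · intro b hb hbw
      refine Finset.sum_eq_zero fun d hd => ?_
      rw [if_neg]
      intro h
      have h2 := huw (b, d) ⟨hb, hd, (e _ _).1 h⟩
      exact hbw (congrArg Prod.fst h2)
    · intro h
      exact absurd hw1 h

/-- The sum of the squares counts the quadruples `(a, b, c, d)` of elements of `D` with `m a - b = m c - d`, that is `m (a - c) = b - d`: for `a = c` also `b = d` (`|D| ^ 2` quadruples),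
for `a ≠ c` (`|D| (|D| - 1)` pairs) `m (a - c) ≠ 0` and there is exactly one pair `(b, d)`. -/
theorem sm2 {D : Finset G} (hD : Planar D) (n : ℕ) (hn : D.card = n + 1) (m : ℕ) (hm : ∀ x : G, m • x = 0 → x = 0) :
    ∑ g : G, cnt D m g ^ 2 = (n + 1) * (2 * n + 1) := by
  classical
  have h1 : ∀ g : G, cnt D m g ^ 2 = ∑ a ∈ D, ∑ b ∈ D, ∑ c ∈ D, ∑ d ∈ D,
      if m • a - b = g then (if m • c - d = g then 1 else 0) else 0 := by
    intro g
    rw [sq, sm2_cnt, Finset.sum_mul]
    refine Finset.sum_congr rfl fun a _ => ?_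
    rw [Finset.sum_mul]
    refine Finset.sum_congr rfl fun b _ => ?_
    by_cases h : m • a - b = g
    · rw [if_pos h, one_mul]
      refine Finset.sum_congr rfl fun c _ => Finset.sum_congr rfl fun d _ => ?_
      rw [if_pos h]
    · rw [if_neg h, zero_mul]
      symm
      refine Finset.sum_eq_zero fun c _ => Finset.sum_eq_zero fun d _ => ?_
      rw [if_neg h]
  have h2 : ∑ g : G, cnt D m g ^ 2 = ∑ a ∈ D, ∑ b ∈ D, ∑ c ∈ D, ∑ d ∈ D,
      if m • a - b = m • c - d then 1 else 0 := by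
    rw [Finset.sum_congr rfl fun g _ => h1 g, Finset.sum_comm]
    refine Finset.sum_congr rfl fun a _ => ?_
    rw [Finset.sum_comm]
    refine Finset.sum_congr rfl fun b _ => ?_
    rw [Finset.sum_comm]
    refine Finset.sum_congr rfl fun c _ => ?_
    rw [Finset.sum_comm]
    refine Finset.sum_congr rfl fun d _ => ?_
    rw [Finset.sum_ite_eq]
    rw [if_pos (Finset.mem_univ _)]
    by_cases h : m • a - b = m • c - d
    · rw [if_pos h, if_pos h.symm]
    · rw [if_neg h, if_neg fun h' => h h'.symm]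
  have h3 : ∑ a ∈ D, ∑ b ∈ D, ∑ c ∈ D, ∑ d ∈ D, (if m • a - b = m • c - d then 1 else 0) =
      ∑ a ∈ D, ∑ c ∈ D, if a = c then n + 1 else 1 := by
    refine Finset.sum_congr rfl fun a _ => ?_
    rw [Finset.sum_comm]
    refine Finset.sum_congr rfl fun c _ => ?_
    exact sm2_in hD n hn m hm a c
  have h4 : ∀ a ∈ D, (∑ c ∈ D, if a = c then n + 1 else 1) = 2 * n + 1 := by
    intro a ha
    rw [← Finset.add_sum_erase D _ ha, if_pos rfl]
    have h5 : (∑ c ∈ D.erase a, if a = c then n + 1 else 1) = ∑ c ∈ D.erase a, 1 := by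
      refine Finset.sum_congr rfl fun c hc => ?_
      rw [if_neg fun h => (Finset.mem_erase.1 hc).1 h.symm]
    rw [h5, ← Finset.card_eq_sum_ones, Finset.card_erase_of_mem ha, hn]
    omega
  rw [h2, h3, Finset.sum_congr rfl h4, Finset.sum_const, hn, smul_eq_mul]
-- END sm2

-- BEGIN con1
/-- Natural numbers `F g` with `F g ≥ 1`, sum `(n + 1) ^ 2` over a set of `n ^ 2 + n + 1` elements and sum of squares `(n + 1) (2 n + 1)`: with `S g = F g - 1`, `∑ S = n`, `∑ S ^ 2 = n ^ 2 = (∑ S) ^ 2`,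
so `S h * S h' = 0` for `h ≠ h'`, and one value is `n`. -/
theorem con1 {ι : Type} [Fintype ι] (n : ℕ) (F : ι → ℕ) (h1 : ∀ i, 1 ≤ F i) (hc : Fintype.card ι = n ^ 2 + n + 1)
    (hs : ∑ i, F i = (n + 1) ^ 2) (hq : ∑ i, F i ^ 2 = (n + 1) * (2 * n + 1)) : ∃ i, F i = n + 1 := by
  have hcz : ∑ _i : ι, (1 : ℤ) = (n : ℤ) ^ 2 + n + 1 := by
    rw [Finset.sum_const, Finset.card_univ, hc]
    simp
  have hsz : ∑ i, (F i : ℤ) = ((n : ℤ) + 1) ^ 2 := by
    have := congrArg (fun k : ℕ => (k : ℤ)) hs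
    push_cast at this
    exact this
  have hqz : ∑ i, (F i : ℤ) ^ 2 = ((n : ℤ) + 1) * (2 * n + 1) := by
    have := congrArg (fun k : ℕ => (k : ℤ)) hq
    push_cast at this
    exact this
  have hS : ∑ i, ((F i : ℤ) - 1) = n := by
    rw [Finset.sum_sub_distrib, hsz, hcz]
    ring
  have hS2 : ∑ i, ((F i : ℤ) - 1) * ((n : ℤ) - ((F i : ℤ) - 1)) = 0 := by
    have e : ∀ i : ι, ((F i : ℤ) - 1) * ((n : ℤ) - ((F i : ℤ) - 1))
        = ((n : ℤ) + 2) * (F i : ℤ) - (F i : ℤ) ^ 2 - ((n : ℤ) + 1) * 1 := by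
      intro i
      ring
    rw [Finset.sum_congr rfl (fun i _ => e i), Finset.sum_sub_distrib, Finset.sum_sub_distrib,
      ← Finset.mul_sum, ← Finset.mul_sum, hsz, hqz, hcz]
    ring
  have hnn : ∀ i, (0 : ℤ) ≤ (F i : ℤ) - 1 := by
    intro i
    have := h1 i
    omega
  have hle : ∀ i, (F i : ℤ) - 1 ≤ n := by
    intro i
    rw [← hS]
    exact Finset.single_le_sum (f := fun i => (F i : ℤ) - 1) (fun j _ => hnn j) (Finset.mem_univ i)
  have hz : ∀ i, ((F i : ℤ) - 1) * ((n : ℤ) - ((F i : ℤ) - 1)) = 0 := by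
    have := (Finset.sum_eq_zero_iff_of_nonneg
      (f := fun i => ((F i : ℤ) - 1) * ((n : ℤ) - ((F i : ℤ) - 1))) (s := Finset.univ)
      (fun i _ => mul_nonneg (hnn i) (by have := hle i; linarith))).1 hS2
    intro i
    exact this i (Finset.mem_univ i)
  by_contra hcon
  push Not at hcon
  have hall : ∀ i, (F i : ℤ) - 1 = 0 := by
    intro i
    rcases mul_eq_zero.1 (hz i) with h | h
    · exact h
    · exfalso
      apply hcon i
      omega
  have hn0 : (n : ℤ) = 0 := by
    rw [← hS, Finset.sum_congr rfl (fun i _ => hall i), Finset.sum_const_zero]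
  have hne : Nonempty ι := by
    rw [← Fintype.card_pos_iff, hc]
    omega
  obtain ⟨i⟩ := hne
  apply hcon i
  have := hall i
  omega
-- END con1

-- BEGIN mul
/-- The multiplier theorem of Hall: for a prime `p ∣ n` there is `g` with `p D = D + g`. `p` is prime to `|G| = n ^ 2 + n + 1` (`crd`), so `p • x = 0` only for `x = 0`; `cnt D p g ≥ 1` by `con`; `sm1`, `sm2`, `con1`:
some `cnt D p g = n + 1 = |D|`, and for every `a ∈ D` there is at most one `b = p a - g`, so all `p a - g` are in `D`. -/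
theorem mul {D : Finset G} (hD : Planar D) (n : ℕ) (hn : D.card = n + 1) (p : ℕ) (hp : p.Prime) (hpn : p ∣ n) :
    ∃ g : G, ∀ a ∈ D, p • a - g ∈ D := by
  classical
  have hcard : Fintype.card G = n ^ 2 + n + 1 := crd hD n hn
  have hm : ∀ x : G, p • x = 0 → x = 0 := by
    intro x hx
    have h1 : addOrderOf x ∣ p := addOrderOf_dvd_of_nsmul_eq_zero hx
    have h2 : addOrderOf x ∣ Fintype.card G := addOrderOf_dvd_card
    rcases (Nat.dvd_prime hp).1 h1 with h | h
    · exact AddMonoid.addOrderOf_eq_one_iff.1 h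
    · exfalso
      rw [h, hcard] at h2
      have h3 : p ∣ n ^ 2 + n := by
        have h5 : n ^ 2 + n = n * (n + 1) := by ring
        rw [h5]
        exact Dvd.dvd.mul_right hpn _
      have h4 : p ∣ 1 := (Nat.dvd_add_right h3).1 h2
      exact hp.one_lt.ne' (Nat.dvd_one.1 h4)
  have h1 : ∀ g : G, 1 ≤ cnt D p g := by
    intro g
    by_contra hlt
    have h0 : cnt D p g = 0 := by omega
    have h2 := con hD n hn p hp hpn g
    rw [h0] at h2
    have hF := Fact.mk hp
    simp at h2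
  obtain ⟨g, hg⟩ := con1 n (cnt D p) h1 hcard (by rw [sm1, hn]) (sm2 hD n hn p hm)
  refine ⟨g, fun a ha => ?_⟩
  have hT : {w : G × G | w.1 ∈ D ∧ w.2 ∈ D ∧ p • w.1 - w.2 = g}.ncard = n + 1 := hg
  have himg : Prod.fst '' {w : G × G | w.1 ∈ D ∧ w.2 ∈ D ∧ p • w.1 - w.2 = g} = (D : Set G) := by
    apply Set.eq_of_subset_of_ncard_le
    · rintro _ ⟨w, hw, rfl⟩
      exact hw.1
    · rw [Set.InjOn.ncard_image, hT, Set.ncard_coe_finset, hn]
      rintro ⟨a, b⟩ h ⟨a', b'⟩ h' hab
      have hab' : a = a' := hab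
      subst hab'
      have e1 : p • a - b = g := h.2.2
      have e2 : p • a - b' = g := h'.2.2
      have e3 : b = b' := by
        have e4 : p • a - b = p • a - b' := e1.trans e2.symm
        exact sub_right_injective e4
      rw [e3]
    · exact D.finite_toSet
  have hain : a ∈ Prod.fst '' {w : G × G | w.1 ∈ D ∧ w.2 ∈ D ∧ p • w.1 - w.2 = g} := by
    rw [himg]
    exact Finset.mem_coe.2 ha
  obtain ⟨w, hw, rfl⟩ := hain
  have h5 : p • w.1 - g = w.2 := by
    rw [← hw.2.2]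
    abel
  rw [h5]
  exact hw.2.1
-- END mul

-- BEGIN fxp
/-- A multiple by a number prime to the order vanishes only at `0`. -/
private theorem fxp_z (m : ℕ) (x : G) (hm : Nat.Coprime m (Fintype.card G)) (hx : m • x = 0) : x = 0 := by
  have h1 : addOrderOf x ∣ m := addOrderOf_dvd_of_nsmul_eq_zero hx
  have h2 : addOrderOf x ∣ Fintype.card G := addOrderOf_dvd_card
  have h3 : addOrderOf x = 1 := Nat.eq_one_of_dvd_coprimes hm h1 h2
  exact AddMonoid.addOrderOf_eq_one_iff.mp h3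

/-- `n + 1` is prime to `n ^ 2 + n + 1`. -/
private theorem fxp_c (n : ℕ) : Nat.Coprime (n + 1) (n ^ 2 + n + 1) := by
  have h : n ^ 2 + n + 1 = 1 + (n + 1) * n := by ring
  rw [h]
  simp [Nat.coprime_add_mul_left_right]

/-- If the sum of the elements of `D` is `0`: `a ↦ p a - g` is an injection, so a permutation of `D`, and the sum gives `0 = p 0 - (n + 1) g`; `n + 1` is prime to `|G|`, so `g = 0`. -/
theorem fxp {D : Finset G} (hD : Planar D) (n : ℕ) (hn : D.card = n + 1) (h0 : ∑ a ∈ D, a = 0) (p : ℕ) (hp : p.Prime)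
    (hpn : p ∣ n) : ∀ a ∈ D, p • a ∈ D := by
  classical
  obtain ⟨g, hg⟩ := mul hD n hn p hp hpn
  have hc := crd hD n hn
  have hcop : Nat.Coprime p (Fintype.card G) := by
    rw [hc]
    obtain ⟨k, rfl⟩ := hpn
    have h : (p * k) ^ 2 + p * k + 1 = 1 + p * (p * k ^ 2 + k) := by ring
    rw [h]
    simp [Nat.coprime_add_mul_left_right]
  have hinj : Set.InjOn (fun a => p • a - g) (D : Set G) := by
    intro a _ b _ hab
    have h1 : p • a = p • b := sub_left_injective hab
    have h2 : p • (a - b) = 0 := by rw [smul_sub, h1, sub_self]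
    exact sub_eq_zero.mp (fxp_z p _ hcop h2)
  have himg : D.image (fun a => p • a - g) = D := by
    apply Finset.eq_of_subset_of_card_le
    · intro x hx
      obtain ⟨a, ha, rfl⟩ := Finset.mem_image.mp hx
      exact hg a ha
    · rw [Finset.card_image_of_injOn hinj]
  have hsum : ∑ a ∈ D, (p • a - g) = 0 := by
    have h := Finset.sum_image (f := fun x : G => x) hinj
    rw [himg] at h
    rw [← h]
    exact h0
  rw [Finset.sum_sub_distrib, ← Finset.smul_sum, h0, smul_zero, Finset.sum_const, hn, zero_sub, neg_eq_zero] at hsum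
  have hg0 : g = 0 := fxp_z (n + 1) g (by rw [hc]; exact fxp_c n) hsum
  intro a ha
  have := hg a ha
  rwa [hg0, sub_zero] at this
-- END fxp

-- BEGIN fxm
/-- Every number all of whose prime factors divide `n` (`Nat.recOnMul` or `Nat.primeFactorsList`). -/
theorem fxm {D : Finset G} (hD : Planar D) (n : ℕ) (hn : D.card = n + 1) (h0 : ∑ a ∈ D, a = 0) (m : ℕ) (hm : m ≠ 0)
    (hmn : ∀ p : ℕ, p.Prime → p ∣ m → p ∣ n) : ∀ a ∈ D, m • a ∈ D := by
  induction m using Nat.recOnMul with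
  | zero => exact absurd rfl hm
  | one => intro a ha; simpa using ha
  | prime p hp => exact fxp hD n hn h0 p hp (hmn p hp dvd_rfl)
  | mul x y hx hy =>
    intro a ha
    have hx0 : x ≠ 0 := left_ne_zero_of_mul hm
    have hy0 : y ≠ 0 := right_ne_zero_of_mul hm
    have h1 := hy hy0 (fun p hp hd => hmn p hp (Dvd.dvd.mul_left hd x)) a ha
    have h2 := hx hx0 (fun p hp hd => hmn p hp (Dvd.dvd.mul_right hd y)) _ h1
    rwa [mul_smul]
-- END fxm

-- BEGIN trn
/-- A translate with sum zero: `∑ (a + t) = ∑ a + (n + 1) t`, and `n + 1` is prime to `|G|` (`gcd (n + 1, n ^ 2 + n + 1) = 1`). The translate is planar. -/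
theorem trn {D : Finset G} (hD : Planar D) (n : ℕ) (hn : D.card = n + 1) :
    ∃ t : G, ∃ D' : Finset G, Planar D' ∧ D'.card = n + 1 ∧ (∀ a, a ∈ D' ↔ a - t ∈ D) ∧ ∑ a ∈ D', a = 0 := by
  classical
  have hc := crd hD n hn
  have hcop : Nat.Coprime (n + 1) (Fintype.card G) := by
    rw [hc]
    have h : n ^ 2 + n + 1 = 1 + (n + 1) * n := by ring
    rw [h]
    simp [Nat.coprime_add_mul_left_right]
  have hinj : Function.Injective (fun x : G => (n + 1) • x) := by
    intro a b hab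
    have h2 : (n + 1) • (a - b) = 0 := by
      rw [smul_sub, sub_eq_zero]
      exact hab
    have h3 : addOrderOf (a - b) = 1 :=
      Nat.eq_one_of_dvd_coprimes hcop (addOrderOf_dvd_of_nsmul_eq_zero h2) addOrderOf_dvd_card
    exact sub_eq_zero.mp (AddMonoid.addOrderOf_eq_one_iff.mp h3)
  obtain ⟨t, ht⟩ := (Finite.injective_iff_surjective.mp hinj) (-(∑ a ∈ D, a))
  have ht' : (n + 1) • t = -(∑ a ∈ D, a) := ht
  have hmem : ∀ a, a ∈ D.image (fun x => x + t) ↔ a - t ∈ D := by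
    intro a
    rw [Finset.mem_image]
    constructor
    · rintro ⟨x, hx, rfl⟩
      rwa [add_sub_cancel_right]
    · intro h
      exact ⟨a - t, h, sub_add_cancel a t⟩
  refine ⟨t, D.image (fun x => x + t), ?_, ?_, hmem, ?_⟩
  · intro g hg
    obtain ⟨w, ⟨hw1, hw2, hw3⟩, hu⟩ := hD g hg
    refine ⟨(w.1 + t, w.2 + t), ⟨?_, ?_, ?_⟩, ?_⟩
    · rw [hmem]; simpa using hw1
    · rw [hmem]; simpa using hw2
    · simpa using hw3
    · rintro ⟨u, v⟩ ⟨h1, h2, h3⟩
      have h4 := hu (u - t, v - t) ⟨(hmem _).mp h1, (hmem _).mp h2, by simpa using h3⟩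
      rw [← h4]
      simp
  · rw [Finset.card_image_of_injective _ (add_left_injective t), hn]
  · rw [Finset.sum_image (fun a _ b _ h => add_left_injective t h), Finset.sum_add_distrib, Finset.sum_const, hn, ht']
    simp
-- END trn

-- BEGIN tau
/-- `|G| = r ^ 4 + r ^ 2 + 1` divides `r ^ 6 - 1`. -/
theorem tau (r : ℕ) (hG : Fintype.card G = (r ^ 2) ^ 2 + r ^ 2 + 1) (x : G) : r ^ 3 • (r ^ 3 • x) = x := by
  have h1 : Fintype.card G • x = 0 := card_nsmul_eq_zero
  have h2 : r ^ 3 * r ^ 3 + Fintype.card G = 1 + r ^ 2 * Fintype.card G := by rw [hG]; ring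
  have h3 : (r ^ 3 * r ^ 3 + Fintype.card G) • x = (1 + r ^ 2 * Fintype.card G) • x := by rw [h2]
  rw [add_nsmul, add_nsmul, mul_nsmul', mul_nsmul', h1, nsmul_zero, add_zero, add_zero, one_nsmul] at h3
  exact h3
-- END tau

-- BEGIN two
/-- `|G|` is odd: halves. -/
theorem two (r : ℕ) (hG : Fintype.card G = (r ^ 2) ^ 2 + r ^ 2 + 1) (x : G) : ∃ y : G, y + y = x := by
  have h1 : Fintype.card G • x = 0 := card_nsmul_eq_zero
  obtain ⟨k, hk⟩ := Nat.even_mul_succ_self (r ^ 2)
  have h2 : Fintype.card G = k + k + 1 := by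
    rw [hG, ← hk]
    ring
  refine ⟨(k + 1) • x, ?_⟩
  have h3 : (k + 1) • x + (k + 1) • x = Fintype.card G • x + x := by
    rw [h2, ← add_nsmul, ← succ_nsmul]
    congr 1
    omega
  rw [h3, h1, zero_add]

/-- `|G|` is odd. -/
theorem two0 (r : ℕ) (hG : Fintype.card G = (r ^ 2) ^ 2 + r ^ 2 + 1) (x : G) (h : x + x = 0) : x = 0 := by
  have h1 : Fintype.card G • x = 0 := card_nsmul_eq_zero
  obtain ⟨k, hk⟩ := Nat.even_mul_succ_self (r ^ 2)
  have h2 : Fintype.card G = k + k + 1 := by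
    rw [hG, ← hk]
    ring
  rw [h2, succ_nsmul, add_nsmul, ← nsmul_add, h, nsmul_zero, zero_add] at h1
  exact h1
-- END two

-- BEGIN spl
/-- `A = {x | r ^ 3 x = x}`, `B = {x | r ^ 3 x = - x}`: `(a, b) ↦ a + b` is a bijection `A × B → G` (`tau`, `two`, `two0`: `x = (x / 2 + r ^ 3 (x / 2)) + (x / 2 - r ^ 3 (x / 2))`). -/
theorem spl (r : ℕ) (hG : Fintype.card G = (r ^ 2) ^ 2 + r ^ 2 + 1) :
    {x : G | r ^ 3 • x = x}.ncard * {x : G | r ^ 3 • x = -x}.ncard = Fintype.card G := by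
  rw [← Set.ncard_prod, ← Nat.card_eq_fintype_card, ← Set.ncard_univ]
  refine Set.ncard_congr (fun p _ => p.1 + p.2) (fun _ _ => Set.mem_univ _) ?_ ?_
  · rintro ⟨a, b⟩ ⟨a', b'⟩ ⟨ha, hb⟩ ⟨ha', hb'⟩ hab
    simp only [Set.mem_setOf_eq] at ha hb ha' hb' hab
    have h1 : a - a' = b' - b := by
      rw [sub_eq_sub_iff_add_eq_add, hab, add_comm]
    have h2 : r ^ 3 • (a - a') = a - a' := by rw [smul_sub, ha, ha']
    have h3 : r ^ 3 • (a - a') = -(a - a') := by
      rw [h1, smul_sub, hb, hb']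
      abel
    have h4 : a - a' = 0 := by
      refine two0 r hG _ ?_
      nth_rewrite 1 [← h2]
      rw [h3]
      abel
    have h5 : a = a' := sub_eq_zero.1 h4
    have h6 : b' = b := sub_eq_zero.1 (h1.symm.trans h4)
    rw [h5, h6]
  · intro x _
    obtain ⟨y, hy⟩ := two r hG x
    have ht := tau r hG y
    refine ⟨(y + r ^ 3 • y, y - r ^ 3 • y), ⟨?_, ?_⟩, ?_⟩
    · show r ^ 3 • (y + r ^ 3 • y) = y + r ^ 3 • y
      rw [smul_add, ht, add_comm]
    · show r ^ 3 • (y - r ^ 3 • y) = -(y - r ^ 3 • y)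
      rw [smul_sub, ht]
      abel
    · show y + r ^ 3 • y + (y - r ^ 3 • y) = x
      rw [← hy]
      abel
-- END spl

-- BEGIN bcd
/-- `|B| = r ^ 2 - r + 1`: with `v1 = r ^ 2 + r + 1`, `v2 = r ^ 2 - r + 1`, `|G| = v1 v2`, odd. A prime `w` dividing `|B|` (Cauchy, `B` is a subgroup: an element of order `w` killed by `r ^ 3 + 1`) divides
`r ^ 3 + 1` and not `v1` (else it divides `r ^ 3 - 1` and so `2`): `|B|` is prime to `v1`, so it divides `v2`; in the same way `|A|` divides `v1`; `spl`. -/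
theorem bcd (r : ℕ) (hr : 1 ≤ r) (hG : Fintype.card G = (r ^ 2) ^ 2 + r ^ 2 + 1) :
    {x : G | r ^ 3 • x = -x}.ncard + r = r ^ 2 + 1 := by
  classical
  let A : AddSubgroup G :=
    { carrier := {x | r ^ 3 • x = x}
      zero_mem' := nsmul_zero _
      add_mem' := by
        intro a b ha hb
        show r ^ 3 • (a + b) = a + b
        rw [nsmul_add, show r ^ 3 • a = a from ha, show r ^ 3 • b = b from hb]
      neg_mem' := by
        intro a ha
        show r ^ 3 • (-a) = -a
        rw [neg_nsmul, show r ^ 3 • a = a from ha] }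
  let B : AddSubgroup G :=
    { carrier := {x | r ^ 3 • x = -x}
      zero_mem' := by
        show r ^ 3 • (0 : G) = -0
        rw [nsmul_zero, neg_zero]
      add_mem' := by
        intro a b ha hb
        show r ^ 3 • (a + b) = -(a + b)
        rw [nsmul_add, show r ^ 3 • a = -a from ha, show r ^ 3 • b = -b from hb, neg_add]
      neg_mem' := by
        intro a ha
        show r ^ 3 • (-a) = -(-a)
        rw [neg_nsmul, show r ^ 3 • a = -a from ha] }
  have hAc : {x : G | r ^ 3 • x = x}.ncard = Nat.card A := rfl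
  have hBc : {x : G | r ^ 3 • x = -x}.ncard = Nat.card B := rfl
  have hspl := spl r hG
  rw [hAc, hBc] at hspl
  have hodd : ¬ 2 ∣ Fintype.card G := by
    obtain ⟨k, hk⟩ := Nat.even_mul_succ_self (r ^ 2)
    have h2 : Fintype.card G = k + k + 1 := by
      rw [hG, ← hk]
      ring
    omega
  have hkA : ∀ w : ℕ, w.Prime → w ∣ Nat.card A → (w : ℤ) ∣ (r : ℤ) ^ 3 - 1 := by
    intro w hw hd
    have : Fact w.Prime := ⟨hw⟩
    obtain ⟨x, hx⟩ := exists_prime_addOrderOf_dvd_card' w hd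
    have h1 : ((r : ℤ) ^ 3 - 1) • x = 0 := by
      have h2 : r ^ 3 • (x : G) = x := x.2
      refine Subtype.ext ?_
      rw [AddSubgroup.coe_zsmul, sub_zsmul, one_zsmul, AddSubgroup.coe_zero]
      have h3 : ((r : ℤ) ^ 3) • (x : G) = r ^ 3 • (x : G) := by
        rw [← natCast_zsmul, Nat.cast_pow]
      rw [h3, h2, add_neg_cancel]
    have h4 := addOrderOf_dvd_iff_zsmul_eq_zero.2 h1
    rwa [hx] at h4
  have hkB : ∀ w : ℕ, w.Prime → w ∣ Nat.card B → (w : ℤ) ∣ (r : ℤ) ^ 3 + 1 := by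
    intro w hw hd
    have : Fact w.Prime := ⟨hw⟩
    obtain ⟨x, hx⟩ := exists_prime_addOrderOf_dvd_card' w hd
    have h1 : ((r : ℤ) ^ 3 + 1) • x = 0 := by
      have h2 : r ^ 3 • (x : G) = -x := x.2
      refine Subtype.ext ?_
      rw [AddSubgroup.coe_zsmul, add_zsmul, one_zsmul, AddSubgroup.coe_zero]
      have h3 : ((r : ℤ) ^ 3) • (x : G) = r ^ 3 • (x : G) := by
        rw [← natCast_zsmul, Nat.cast_pow]
      rw [h3, h2, neg_add_cancel]
    have h4 := addOrderOf_dvd_iff_zsmul_eq_zero.2 h1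
    rwa [hx] at h4
  have hle : r ≤ r ^ 2 + 1 := by nlinarith
  obtain ⟨v, hv⟩ : ∃ v, v + r = r ^ 2 + 1 := ⟨r ^ 2 + 1 - r, by omega⟩
  have hvz : (v : ℤ) = (r : ℤ) ^ 2 + 1 - r := by
    have : (v : ℤ) + r = (r : ℤ) ^ 2 + 1 := by exact_mod_cast hv
    linarith
  have hGv : Fintype.card G = (r ^ 2 + r + 1) * v := by
    have : (Fintype.card G : ℤ) = ((r : ℤ) ^ 2 + r + 1) * v := by
      rw [hG, hvz]
      push_cast
      ring
    exact_mod_cast this
  have hw2 : ∀ w : ℕ, w.Prime → w ∣ Fintype.card G → (w : ℤ) ∣ (r : ℤ) ^ 3 - 1 → (w : ℤ) ∣ (r : ℤ) ^ 3 + 1 → False := by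
    intro w hw hd h1 h2
    have h3 : (w : ℤ) ∣ 2 := by
      have h4 := dvd_sub h2 h1
      have h5 : (r : ℤ) ^ 3 + 1 - ((r : ℤ) ^ 3 - 1) = 2 := by ring
      rwa [h5] at h4
    have h6 : w ∣ 2 := by exact_mod_cast h3
    have h7 : w = 2 := (Nat.prime_dvd_prime_iff_eq hw Nat.prime_two).1 h6
    rw [h7] at hd
    exact hodd hd
  have hBG : Nat.card B ∣ Fintype.card G := by
    rw [← hspl]
    exact Dvd.intro_left _ rfl
  have hAG : Nat.card A ∣ Fintype.card G := by
    rw [← hspl]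
    exact Dvd.intro _ rfl
  have hcB : (Nat.card B).Coprime (r ^ 2 + r + 1) := by
    rw [Nat.coprime_iff_gcd_eq_one]
    by_contra hne
    obtain ⟨w, hw, hd⟩ := Nat.exists_prime_and_dvd hne
    have h1 : w ∣ Nat.card B := hd.trans (Nat.gcd_dvd_left _ _)
    have h2 : w ∣ r ^ 2 + r + 1 := hd.trans (Nat.gcd_dvd_right _ _)
    have h3 : (w : ℤ) ∣ (r : ℤ) ^ 2 + r + 1 := by exact_mod_cast h2
    refine hw2 w hw (h1.trans hBG) ?_ (hkB w hw h1)
    have h4 : (r : ℤ) ^ 3 - 1 = ((r : ℤ) ^ 2 + r + 1) * (r - 1) := by ring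
    rw [h4]
    exact h3.mul_right _
  have hcA : (Nat.card A).Coprime v := by
    rw [Nat.coprime_iff_gcd_eq_one]
    by_contra hne
    obtain ⟨w, hw, hd⟩ := Nat.exists_prime_and_dvd hne
    have h1 : w ∣ Nat.card A := hd.trans (Nat.gcd_dvd_left _ _)
    have h2 : w ∣ v := hd.trans (Nat.gcd_dvd_right _ _)
    have h3 : (w : ℤ) ∣ (v : ℤ) := by exact_mod_cast h2
    refine hw2 w hw (h1.trans hAG) (hkA w hw h1) ?_
    have h4 : (r : ℤ) ^ 3 + 1 = (v : ℤ) * (r + 1) := by rw [hvz]; ring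
    rw [h4]
    exact h3.mul_right _
  have hBv : Nat.card B ∣ v := by
    rw [hGv] at hBG
    exact hcB.dvd_of_dvd_mul_left hBG
  have hAv : Nat.card A ∣ r ^ 2 + r + 1 := by
    rw [hGv] at hAG
    exact hcA.dvd_of_dvd_mul_right hAG
  have hvpos : 0 < v := by nlinarith
  have hB1 : Nat.card B ≤ v := Nat.le_of_dvd hvpos hBv
  have hA1 : Nat.card A ≤ r ^ 2 + r + 1 := Nat.le_of_dvd (by positivity) hAv
  have hBe : Nat.card B = v := by
    refine le_antisymm hB1 ?_
    by_contra hlt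
    push Not at hlt
    have h5 : Nat.card A * Nat.card B < (r ^ 2 + r + 1) * v :=
      Nat.mul_lt_mul_of_le_of_lt hA1 hlt (by positivity)
    rw [hspl, hGv] at h5
    exact lt_irrefl _ h5
  rw [hBc, hBe]
  exact hv
-- END bcd

-- BEGIN dfx
/-- `a ↦ a - r ^ 3 a` maps the elements of `D` not fixed by `r ^ 3` injectively (`uni`) into `B` without `0`: at most `|B| - 1 = r ^ 2 - r` of them, so at least `r + 1` elements of `D` are fixed. -/
theorem dfx (r : ℕ) (hr : 1 ≤ r) {D : Finset G} (hD : Planar D) (hn : D.card = r ^ 2 + 1)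
    (hfix : ∀ a ∈ D, r ^ 3 • a ∈ D) : r + 1 ≤ {x : G | x ∈ D ∧ r ^ 3 • x = x}.ncard := by
  classical
  have hG := crd hD (r ^ 2) hn
  have hB := bcd r hr hG
  have h1 : {x : G | x ∈ D ∧ r ^ 3 • x = x} = ((D.filter (fun x => r ^ 3 • x = x) : Finset G) : Set G) := by
    ext x
    rw [Finset.coe_filter]
  have h2 : {x : G | r ^ 3 • x = -x} = (((univ : Finset G).filter (fun x => r ^ 3 • x = -x) : Finset G) : Set G) := by
    ext x
    rw [Finset.coe_filter]
    simp
  rw [h1, Set.ncard_coe_finset]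
  rw [h2, Set.ncard_coe_finset] at hB
  have h3 : (D.filter (fun x => ¬ r ^ 3 • x = x)).card ≤
      (((univ : Finset G).filter (fun x => r ^ 3 • x = -x)).erase 0).card := by
    refine Finset.card_le_card_of_injOn (fun a => a - r ^ 3 • a) ?_ ?_
    · intro a ha
      obtain ⟨haD, hne⟩ := Finset.mem_filter.1 (Finset.mem_coe.1 ha)
      refine Finset.mem_coe.2 (Finset.mem_erase.2 ⟨?_, Finset.mem_filter.2 ⟨Finset.mem_univ _, ?_⟩⟩)
      · intro h0
        exact hne (sub_eq_zero.1 h0).symm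
      · show r ^ 3 • (a - r ^ 3 • a) = -(a - r ^ 3 • a)
        rw [smul_sub, tau r hG, neg_sub]
    · intro a ha c hc hac
      obtain ⟨haD, hne⟩ := Finset.mem_filter.1 (Finset.mem_coe.1 ha)
      obtain ⟨hcD, hne'⟩ := Finset.mem_filter.1 (Finset.mem_coe.1 hc)
      exact (uni hD haD (hfix a haD) hcD (hfix c hcD) hac (fun h => hne h.symm)).1
  have h4 : (0 : G) ∈ (univ : Finset G).filter (fun x => r ^ 3 • x = -x) := by
    rw [Finset.mem_filter]
    exact ⟨Finset.mem_univ _, by rw [smul_zero, neg_zero]⟩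
  rw [Finset.card_erase_of_mem h4] at h3
  have h5 : (D.filter (fun x => r ^ 3 • x = x)).card + (D.filter (fun x => ¬ r ^ 3 • x = x)).card = D.card :=
    Finset.card_filter_add_card_filter_not _
  have h6 : r ≤ r ^ 2 := Nat.le_self_pow (by norm_num) r
  omega
-- END dfx

-- BEGIN uct
/-- `U = {x | x + r ^ 3 x ∈ D}` has at least `(r + 1) (r ^ 2 - r + 1) = r ^ 3 + 1` elements: `a / 2 + b` for `a ∈ D` fixed by `r ^ 3` (`dfx`) and `b ∈ B` (`bcd`), all different (`two0`). -/
theorem uct (r : ℕ) (hr : 1 ≤ r) {D : Finset G} (hD : Planar D) (hn : D.card = r ^ 2 + 1)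
    (hfix : ∀ a ∈ D, r ^ 3 • a ∈ D) : r ^ 3 + 1 ≤ {x : G | x + r ^ 3 • x ∈ D}.ncard := by
  have hG := crd hD (r ^ 2) hn
  have h1 := dfx r hr hD hn hfix
  have h2 := bcd r hr hG
  choose h hh using two r hG
  have hfx : ∀ a : G, r ^ 3 • a = a → r ^ 3 • h a = h a := by
    intro a ha
    have h3 : (r ^ 3 • h a - h a) + (r ^ 3 • h a - h a) = 0 := by
      have h4 : (r ^ 3 • h a - h a) + (r ^ 3 • h a - h a) = r ^ 3 • (h a + h a) - (h a + h a) := by
        rw [smul_add]
        abel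
      rw [h4, hh, ha, sub_self]
    exact sub_eq_zero.1 (two0 r hG _ h3)
  have hval : ∀ a b : G, r ^ 3 • a = a → r ^ 3 • b = - b → (h a + b) + r ^ 3 • (h a + b) = a := by
    intro a b ha hb
    have h4 : (h a + b) + r ^ 3 • (h a + b) = h a + h a := by
      rw [smul_add, hfx a ha, hb]
      abel
    rw [h4, hh]
  have h5 : ({x : G | x ∈ D ∧ r ^ 3 • x = x} ×ˢ {x : G | r ^ 3 • x = -x}).ncard ≤
      {x : G | x + r ^ 3 • x ∈ D}.ncard := by
    refine Set.ncard_le_ncard_of_injOn (fun w : G × G => h w.1 + w.2) ?_ ?_ (Set.toFinite _)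
    · rintro ⟨a, b⟩ ⟨⟨ha, ha'⟩, hb⟩
      show (h a + b) + r ^ 3 • (h a + b) ∈ D
      rw [hval a b ha' hb]
      exact ha
    · rintro ⟨a, b⟩ ⟨⟨ha, ha'⟩, hb⟩ ⟨c, d⟩ ⟨⟨hc, hc'⟩, hd⟩ he
      have he' : h a + b = h c + d := he
      have h6 : a = c := by
        rw [← hval a b ha' hb, he', hval c d hc' hd]
      subst h6
      rw [add_left_cancel he']
  rw [Set.ncard_prod] at h5
  have h6 : (r + 1) * {x : G | r ^ 3 • x = -x}.ncard = r ^ 3 + 1 := by
    have h7 : (r + 1) * ({x : G | r ^ 3 • x = -x}.ncard + r) = (r + 1) * (r ^ 2 + 1) := by rw [h2]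
    nlinarith
  rw [← h6]
  exact (Nat.mul_le_mul_right _ h1).trans h5
-- END uct

-- BEGIN mat
/-- The edges inside `U` form a matching `x, r ^ 3 x`. With `d = x + r ^ 3 x`, `d' = y + r ^ 3 y`, `e = x + y`, `r ^ 3 e` in `D`: `e + r ^ 3 e = d + d'`, so `e - d = d' - r ^ 3 e`; if `e ≠ d` then (`uni`) `e = d'`
and `d = r ^ 3 e`. If `e = d` then `y = r ^ 3 x`; if `e = d'` then `x = r ^ 3 y`. -/
theorem mat (r : ℕ) {D : Finset G} (hD : Planar D) (hG : Fintype.card G = (r ^ 2) ^ 2 + r ^ 2 + 1)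
    (hfix : ∀ a ∈ D, r ^ 3 • a ∈ D) {x y : G} (hx : x + r ^ 3 • x ∈ D) (hy : y + r ^ 3 • y ∈ D) (hxy : x + y ∈ D) :
    y = r ^ 3 • x := by
  have hte := hfix _ hxy
  by_cases h : x + y = x + r ^ 3 • x
  · exact add_left_cancel h
  · have h1 : (x + y) - (x + r ^ 3 • x) = (y + r ^ 3 • y) - r ^ 3 • (x + y) := by
      rw [smul_add]
      abel
    obtain ⟨h2, -⟩ := uni hD hxy hx hy hte h1 h
    have h3 : x = r ^ 3 • y := by
      rw [add_comm x y] at h2
      exact add_left_cancel h2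
    rw [h3, tau r hG]
-- END mat

-- BEGIN hlf
/-- A finite set `U` and an involution `τ` of it; if `x, y ∈ U` are adjacent then `y = τ x`. With any linear order on `V` the set `{x ∈ U | x ≤ τ x}` is independent and has at least half of the elements. -/
theorem hlf {V : Type} (Γ : SimpleGraph V) (U : Finset V) (τ : V → V) (h1 : ∀ x ∈ U, τ x ∈ U) (h2 : ∀ x ∈ U, τ (τ x) = x)
    (h3 : ∀ x ∈ U, ∀ y ∈ U, Γ.Adj x y → y = τ x) :
    ∃ I : Finset V, Γ.IsIndepSet (I : Set V) ∧ U.card ≤ 2 * I.card := by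
  classical
  refine ⟨U.filter (fun x => ¬ WellOrderingRel (τ x) x), ?_, ?_⟩
  · intro x hx y hy hxy hadj
    rw [Finset.mem_coe, Finset.mem_filter] at hx hy
    have hyx : y = τ x := h3 x hx.1 y hy.1 hadj
    have hxy' : x = τ y := h3 y hy.1 x hx.1 hadj.symm
    have a1 : ¬ WellOrderingRel y x := by rw [hyx]; exact hx.2
    have a2 : ¬ WellOrderingRel x y := by
      have := hy.2
      rwa [← hxy'] at this
    rcases trichotomous_of (WellOrderingRel (α := V)) x y with h | h | h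
    · exact a2 h
    · exact hxy h
    · exact a1 h
  · have hsub : U ⊆ (U.filter (fun x => ¬ WellOrderingRel (τ x) x)) ∪
        (U.filter (fun x => ¬ WellOrderingRel (τ x) x)).image τ := by
      intro x hx
      rw [Finset.mem_union]
      by_cases hlt : WellOrderingRel (τ x) x
      · right
        rw [Finset.mem_image]
        refine ⟨τ x, ?_, h2 x hx⟩
        rw [Finset.mem_filter]
        refine ⟨h1 x hx, ?_⟩
        rw [h2 x hx]
        exact fun h => asymm_of (WellOrderingRel (α := V)) hlt h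
      · left
        exact Finset.mem_filter.2 ⟨hx, hlt⟩
    calc U.card ≤ _ := Finset.card_le_card hsub
      _ ≤ (U.filter (fun x => ¬ WellOrderingRel (τ x) x)).card +
          ((U.filter (fun x => ¬ WellOrderingRel (τ x) x)).image τ).card := Finset.card_union_le _ _
      _ ≤ (U.filter (fun x => ¬ WellOrderingRel (τ x) x)).card +
          (U.filter (fun x => ¬ WellOrderingRel (τ x) x)).card :=
            Nat.add_le_add_left Finset.card_image_le _
      _ = 2 * _ := by ring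
-- END hlf

-- BEGIN ind
/-- For a set `D` with `r ^ 3 D = D`: `uct`, `mat`, `hlf`. -/
theorem ind (r : ℕ) (hr : 1 ≤ r) {D : Finset G} (hD : Planar D) (hn : D.card = r ^ 2 + 1)
    (hfix : ∀ a ∈ D, r ^ 3 • a ∈ D) (Γ : SimpleGraph G) (hΓ : ∀ x y, Γ.Adj x y → x + y ∈ D) :
    ∃ I : Finset G, Γ.IsIndepSet (I : Set G) ∧ r ^ 3 + 1 ≤ 2 * I.card := by
  classical
  have hG : Fintype.card G = (r ^ 2) ^ 2 + r ^ 2 + 1 := crd hD (r ^ 2) hn
  have hct := uct r hr hD hn hfix
  have hfin : ({x : G | x + r ^ 3 • x ∈ D}).Finite := Set.toFinite _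
  obtain ⟨I, hI, hc⟩ := hlf Γ hfin.toFinset (fun x => r ^ 3 • x)
    (by
      intro x hx
      rw [Set.Finite.mem_toFinset] at hx ⊢
      change r ^ 3 • x + r ^ 3 • (r ^ 3 • x) ∈ D
      rw [tau r hG x, add_comm]
      exact hx)
    (fun x _ => tau r hG x)
    (by
      intro x hx y hy hadj
      rw [Set.Finite.mem_toFinset] at hx hy
      exact mat r hD hG hfix hx hy (hΓ x y hadj))
  refine ⟨I, hI, hct.trans ?_⟩
  rw [Set.ncard_eq_toFinset_card _ hfin]
  exact hc
-- END ind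

-- BEGIN mai
/-- `trn`, `fxm` with `m = r ^ 3`; with `u + u = t` (`two`) the map `x ↦ x + u` carries the graph to a graph for the translate `D'`. -/
theorem mai (r : ℕ) (hr : 1 ≤ r) {D : Finset G} (hD : Planar D) (hn : D.card = r ^ 2 + 1) (Γ : SimpleGraph G)
    (hΓ : ∀ x y, Γ.Adj x y → x + y ∈ D) :
    ∃ I : Finset G, Γ.IsIndepSet (I : Set G) ∧ r ^ 3 + 1 ≤ 2 * I.card := by
  classical
  obtain ⟨t, D', hD', hc, hmem, h0⟩ := trn hD (r ^ 2) hn
  have hG : Fintype.card G = (r ^ 2) ^ 2 + r ^ 2 + 1 := crd hD (r ^ 2) hn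
  have hr3 : r ^ 3 ≠ 0 := pow_ne_zero 3 (by omega)
  have hfix : ∀ a ∈ D', r ^ 3 • a ∈ D' := by
    refine fxm hD' (r ^ 2) hc h0 (r ^ 3) hr3 (fun p hp h => ?_)
    exact Dvd.dvd.trans (hp.dvd_of_dvd_pow h) (dvd_pow_self r two_ne_zero)
  obtain ⟨u, hu⟩ := two r hG t
  have hΓ' : ∀ x y, (Γ.comap (fun x : G => x - u)).Adj x y → x + y ∈ D' := by
    intro x y h
    rw [hmem]
    have h1 : (x - u) + (y - u) ∈ D := hΓ _ _ h
    have h2 : x + y - t = (x - u) + (y - u) := by
      rw [← hu]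
      abel
    rw [h2]
    exact h1
  obtain ⟨I, hI, hcI⟩ := ind r hr hD' hc hfix (Γ.comap (fun x : G => x - u)) hΓ'
  refine ⟨I.image (fun x => x - u), ?_, ?_⟩
  · intro x hx y hy hxy hadj
    rw [Finset.mem_coe, Finset.mem_image] at hx hy
    obtain ⟨a, ha, rfl⟩ := hx
    obtain ⟨b, hb, rfl⟩ := hy
    exact hI (Finset.mem_coe.2 ha) (Finset.mem_coe.2 hb) (fun h => hxy (by rw [h])) hadj
  · rw [Finset.card_image_of_injective]
    · exact hcI
    · intro a b h
      exact sub_left_injective h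
-- END mai

end Pool.Agent.C4p
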